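import Mathlib
import Pool.Agent.J4H16.UD.Defs

/-!
# Conformal discs: the Schwarz lemma for the inverse
-/

set_option autoImplicit false
open Set Filter Topology Metric Complex MeasureTheory

namespace Pool.Agent.J4H8.UD

open Pool.Agent.J4H16 Pool.Agent.J4H16.AS Pool.Agent.J4H16.UD Pool.Agent.W746.LD

variable {φ : ℂ → ℂ} {a : ℂ} {R : ℝ}

theorem inv_diff (hφ : Univ φ 0 1) (hsub : ball a R ⊆ φ '' ball 0 1) :
    DifferentiableOn ℂ (Function.invFunOn φ (ball 0 1)) (ball a R) := fun w hw =>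
  (Pool.Agent.Helper202.Univ.differentiableAt_inv isOpen_ball hφ.1 hφ.2
    (hsub hw)).differentiableWithinAt

theorem inv_zero (hφ : Univ φ 0 1) (h0 : φ 0 = a) :
    Function.invFunOn φ (ball 0 1) a = 0 := by
  rw [← h0]
  exact Pool.Agent.Helper202.Univ.invFunOn_left hφ.2 (mem_ball_self one_pos)

/-- The Schwarz lemma for the inverse of a conformal disc. -/
theorem inv_small (hφ : Univ φ 0 1) (h0 : φ 0 = a) (hR : 0 < R)
    (hsub : ball a R ⊆ φ '' ball 0 1) {u : ℂ} (hu : u ∈ ball a R) :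
    ∃ ζ ∈ ball (0 : ℂ) 1, ‖ζ‖ ≤ ‖u - a‖ / R ∧ φ ζ = u := by
  have h1 := inv_diff hφ hsub
  have h2 := inv_zero hφ h0
  have hmaps : MapsTo (Function.invFunOn φ (ball 0 1)) (ball a R)
      (closedBall (Function.invFunOn φ (ball 0 1) a) 1) := by
    intro w hw
    rw [h2]
    exact ball_subset_closedBall (Pool.Agent.Helper202.Univ.invFunOn_mem (hsub hw))
  have h3 := Complex.dist_le_div_mul_dist_of_mapsTo_ball h1 hmaps hu
  rw [h2, dist_zero_right, dist_eq_norm] at h3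
  refine ⟨_, Pool.Agent.Helper202.Univ.invFunOn_mem (hsub hu), ?_,
    Pool.Agent.Helper202.Univ.invFunOn_right (hsub hu)⟩
  calc ‖Function.invFunOn φ (ball 0 1) u‖ ≤ 1 / R * ‖u - a‖ := h3
    _ = ‖u - a‖ / R := by ring

theorem deriv_ge (hφ : Univ φ 0 1) (h0 : φ 0 = a) (hR : 0 < R)
    (hsub : ball a R ⊆ φ '' ball 0 1) : R ≤ ‖deriv φ 0‖ := by
  have h0b : (0 : ℂ) ∈ ball (0 : ℂ) 1 := mem_ball_self one_pos
  have h1 := inv_diff hφ hsub
  have h2 := inv_zero hφ h0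
  have hmaps : MapsTo (Function.invFunOn φ (ball 0 1)) (ball a R)
      (closedBall (Function.invFunOn φ (ball 0 1) a) 1) := by
    intro w hw
    rw [h2]
    exact ball_subset_closedBall (Pool.Agent.Helper202.Univ.invFunOn_mem (hsub hw))
  have h3 := Complex.norm_deriv_le_div_of_mapsTo_ball h1 hmaps hR
  have h4 := (Pool.Agent.Helper202.Univ.hasDerivAt_inv isOpen_ball hφ.1 hφ.2 h0b).deriv
  rw [h0] at h4
  rw [h4, norm_inv] at h3
  have h5 : 0 < ‖deriv φ 0‖ := norm_pos_iff.mpr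
    (Pool.Agent.Helper202.Univ.deriv_ne_zero isOpen_ball hφ.1 hφ.2 h0b)
  rw [inv_le_comm₀ h5 (by positivity)] at h3
  simpa using h3

theorem deriv_le {B : ℝ} (hφ : Univ φ 0 1) (h0 : φ 0 = a)
    (hsub : φ '' ball 0 1 ⊆ ball a B) : ‖deriv φ 0‖ ≤ B := by
  have hmaps : MapsTo φ (ball 0 1) (closedBall (φ 0) B) := by
    intro w hw
    rw [h0]
    exact ball_subset_closedBall (hsub (mem_image_of_mem φ hw))
  have h3 := Complex.norm_deriv_le_div_of_mapsTo_ball hφ.1 hmaps one_pos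
  simpa using h3

/-- Critical values in the image of a lift are in the postcritical set. -/
theorem lf_crit {n : ℕ} {c : ℂ} (hn : 2 ≤ n) {j : ℕ} {h : ℂ → ℂ} (hh : Lf n c j φ h) {v : ℂ}
    (hv : v ∈ ball (0 : ℂ) 1) (hhv : h v = c) : φ v ∈ PC n c := by
  rw [← hh.eq v hv, hhv, ← orb_one_crit hn]
  exact orb_mem_PC (by omega)

theorem t_ZACC : S_ZACC := by
  intro n c r ν A x ε R1 hQ hd hI hx hε hε1 hR1 hU δ hδ
  have hn := hQ.hn
  obtain ⟨C0, c0, Kc⟩ := exists_KC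
  have hc0 := Kc.pos
  have hC0 := Kc.one_le
  by_contra hcon
  push Not at hcon
  obtain ⟨y, hyK, hy⟩ := (isCompact_K n c).exists_mapClusterPt (f := atTop)
    (u := fun k => orb n c x k) (by
      rw [le_principal_iff]
      exact mem_map.mpr (Eventually.of_forall fun k => hx.orb_mem hI hn hQ.c2 k))
  obtain ⟨m, hm⟩ := exists_rad (θ := max (1 - ε) (1 / 2)) (max_lt (by linarith) (by norm_num))
  have hm1 : 1 - ε ≤ 1 - (3 / 4) ^ m := (le_max_left _ _).trans hm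
  have hm2 : 1 / 2 ≤ 1 - (3 / 4 : ℝ) ^ m := (le_max_right _ _).trans hm
  have hCm : 1 ≤ C0 ^ (2 * m) := one_le_pow₀ hC0
  set e2 : ℝ := c0 * (1 / 2) * (δ ^ n / (2 * C0 ^ (2 * m))) with he2
  have he20 : 0 < e2 := by positivity
  obtain ⟨d, hd1, hd2⟩ := hQ.nn hd he20
  set R : ℝ := min R1 (d * ε) with hR
  have hR0 : 0 < R := lt_min hR1 (by positivity)
  obtain ⟨φ, hφ, hφ0, hin, hout, hcol⟩ := hU y R hR0 (min_le_left _ _)
  have hout' : φ '' ball 0 1 ⊆ ball y d := by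
    refine hout.trans (ball_subset_ball ?_)
    rw [div_le_iff₀ hε]
    exact min_le_right _ _
  obtain ⟨N, hN⟩ := hx.conical hQ hd Kc hI (half_pos hR0)
  obtain ⟨k, hk1, hk2⟩ := ((hy.frequently (ball_mem_nhds y (half_pos hR0))).and_eventually
    (eventually_ge_atTop N)).exists
  have hk1' : orb n c x k ∈ ball y (R / 2) := hk1
  have hk3 : ‖orb n c x k - y‖ < R / 2 := by rwa [mem_ball, dist_eq_norm] at hk1'
  obtain ⟨ζ0, hζ0b, hζ0n, hζ0⟩ := inv_small hφ hφ0 hR0 hin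
    (ball_subset_ball (by linarith) hk1')
  have hζ0h : ‖ζ0‖ ≤ 1 / 2 := by
    refine hζ0n.trans ?_
    rw [div_le_iff₀ hR0]
    linarith
  have hsub : ball (orb n c x k) (R / 2) ⊆ φ '' ball 0 1 := by
    refine Subset.trans ?_ hin
    intro z hz
    rw [mem_ball] at hz hk1' ⊢
    have := dist_triangle z (orb n c x k) y
    linarith
  have hnot : ¬ ∀ j < k, ∀ h, Lf n c j φ h → h ζ0 = orb n c x (k - j) →
      ∀ w ∈ ball (0 : ℂ) 1, h w ≠ c := by
    intro hall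
    obtain ⟨h, hh, hh0⟩ := exists_lf hn hφ hζ0b hζ0 hall
    refine hN k hk2 _ (hh.br hφ hsub) ?_
    show h (Function.invFunOn φ (ball 0 1) (orb n c x k)) = x
    rw [← hζ0, Pool.Agent.Helper202.Univ.invFunOn_left hφ.2 hζ0b, hh0]
  push Not at hnot
  obtain ⟨j, hj, h, hh, hh0, v, hv, hhv⟩ := hnot
  have hu := hh.univ hφ
  have hvθ : ‖v‖ ≤ 1 - ε := by
    by_contra hgt
    push Not at hgt
    rw [mem_ball, dist_zero_right] at hv
    exact hcol v hgt hv (lf_crit hn hh (by rwa [mem_ball, dist_zero_right]) hhv)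
  have h3 := KC.rad_lip Kc one_pos hu m (x := v) (u := ζ0) (by rw [mul_one]; linarith)
    (by rw [mul_one]; linarith)
  obtain ⟨i, hi⟩ : ∃ i, k - j = i + 1 := ⟨k - j - 1, by omega⟩
  rw [hhv, hh0, hi, norm_sub_rev, norm_orb_succ_sub] at h3
  have h4 : δ ^ n ≤ ‖orb n c x i‖ ^ n := by
    have := hcon i
    gcongr
  have h5 : δ ^ n / (2 * C0 ^ (2 * m)) ≤ ‖deriv h ζ0‖ := by
    rw [div_le_iff₀ (by positivity)]
    linarith
  apply hd2 (orb n c x (k - j)) (hx.orb_mem hI hn hQ.c2 _) j y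
  intro z hz
  rw [mem_ball, dist_eq_norm] at hz
  have hsubζ : ball ζ0 (1 / 2) ⊆ ball 0 1 := by
    intro u hu
    rw [mem_ball, dist_eq_norm] at hu
    rw [mem_ball, dist_zero_right]
    have := norm_add_le (u - ζ0) ζ0
    rw [sub_add_cancel] at this
    linarith
  have h6 : z ∈ h '' ball 0 1 := by
    apply KC.ball_sub Kc hu (by norm_num : (0 : ℝ) < 1 / 2) hsubζ
    rw [mem_ball, dist_eq_norm, hh0]
    calc ‖z - orb n c x (k - j)‖ < e2 := hz
      _ ≤ c0 * (1 / 2) * ‖deriv h ζ0‖ := by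
        rw [he2]
        gcongr
  obtain ⟨ζ, hζ, rfl⟩ := h6
  rw [hh.eq ζ hζ]
  exact hout' (mem_image_of_mem φ hζ)

end Pool.Agent.J4H8.UD
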