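import Mathlib
import Pool.Agent.J4H8.AS.Entry
import Pool.Agent.J4H8.UD.Basic

/-!
# Good base times at every small scale, for uniformly disconnected postcritical sets
-/

set_option autoImplicit false
open Set Filter Topology Metric Complex MeasureTheory

namespace Pool.Agent.J4H8.UD

open Pool.Agent.J4H16 Pool.Agent.J4H16.AS Pool.Agent.J4H16.UD Pool.Agent.W746.LD
open Pool.Agent.J4H8.AS (exists_br_small)

theorem t_ENTRYC : S_ENTRYC := by
  classical
  intro n c r ν A x ε R1 hQ hd hI hx hε hε1 hR1 hU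
  have hn := hQ.hn
  have hn0 : n ≠ 0 := by omega
  have hnR : (0 : ℝ) < n := by exact_mod_cast (by omega : 0 < n)
  obtain ⟨C0, c0, Kc⟩ := exists_KC
  have hc0 := Kc.pos
  have hc4 := Kc.le
  have hC0 := Kc.one_le
  set θ : ℝ := 1 - ε with hθd
  have hθ0 : 0 < θ := by linarith
  have hθ : θ < 1 := by linarith
  obtain ⟨m0, hm0⟩ := exists_rad hθ
  have hCm : 1 ≤ C0 ^ m0 := one_le_pow₀ hC0
  have hC2m : 1 ≤ C0 ^ (2 * m0) := one_le_pow₀ hC0
  set D : ℝ := 2 * C0 ^ (2 * m0) with hD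
  have hD0 : 0 < D := by positivity
  set κ1 : ℝ := c0 * ε / (2 * n * D) with hκ1
  have hκ10 : 0 < κ1 := by positivity
  set κ3 : ℝ := c0 * (1 - θ) / (2 * D * C0 ^ m0) with hκ3
  have hθ1 : 0 < 1 - θ := by linarith
  have hκ30 : 0 < κ3 := by positivity
  set C1 : ℝ := 8 / κ3 + 2 with hC1
  have hC10 : 2 < C1 := by
    have : 0 < 8 / κ3 := by positivity
    linarith
  set κ : ℝ := min κ1 ε with hκ
  have hκ0 : 0 < κ := by positivity
  refine ⟨C1, κ, min 1 R1, by linarith, hκ0, lt_min one_pos hR1, ?_⟩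
  intro ρ hρ hρ1
  -- the first time
  have hex : ∃ k, ‖orb n c x k‖ < ρ := t_ZACC n c r ν A x ε R1 hQ hd hI hx hε hε1 hR1 hU ρ hρ
  obtain ⟨L, hL, hLmin⟩ : ∃ L, ‖orb n c x L‖ < ρ ∧ ∀ i < L, ρ ≤ ‖orb n c x i‖ :=
    ⟨Nat.find hex, Nat.find_spec hex, fun i hi => not_lt.mp (Nat.find_min hex hi)⟩
  set zL := orb n c x L with hzL
  -- the good radii
  have hgood : ∃ i : ℕ, ∃ g, Br n c L zL (κ * ρ / 2 ^ i) g ∧ g zL = x := by
    obtain ⟨r0, hr0, g, h1, h2⟩ := exists_br_small hn L (fun i _ => hx.orb_ne i)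
    obtain ⟨i, hi⟩ := exists_pow_lt_of_lt_one (show 0 < r0 / (κ * ρ) by positivity)
      (by norm_num : (1 / 2 : ℝ) < 1)
    refine ⟨i, g, h1.mono (ball_subset_ball ?_), h2⟩
    rw [lt_div_iff₀ (by positivity)] at hi
    calc κ * ρ / 2 ^ i = (1 / 2) ^ i * (κ * ρ) := by rw [one_div, inv_pow]; ring
      _ ≤ r0 := hi.le
  rcases Nat.eq_zero_or_pos (Nat.find hgood) with hz | hpos
  · obtain ⟨g, h1, h2⟩ := Nat.find_spec hgood
    rw [hz] at h1
    refine ⟨L, g, ?_, h2, ?_, hLmin⟩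
    · simpa using h1
    · rw [← hzL]
      have h3 := mul_le_mul_of_nonneg_right hC10.le hρ.le
      linarith
  -- the radius `t`
  obtain ⟨t, ht, ht2, ⟨g, hg, hgx⟩, hbad⟩ : ∃ t : ℝ, 0 < t ∧ 2 * t ≤ κ * ρ ∧
      (∃ g, Br n c L zL t g ∧ g zL = x) ∧ ¬ ∃ g, Br n c L zL (2 * t) g ∧ g zL = x := by
    have h1 := Nat.find_spec hgood
    have h2 := Nat.find_min hgood (m := Nat.find hgood - 1) (by omega)
    obtain ⟨i, hi⟩ : ∃ i, Nat.find hgood = i + 1 := ⟨Nat.find hgood - 1, by omega⟩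
    rw [hi] at h1 h2
    have e : κ * ρ / 2 ^ i = 2 * (κ * ρ / 2 ^ (i + 1)) := by
      rw [pow_succ]
      field_simp
    refine ⟨κ * ρ / 2 ^ (i + 1), by positivity, ?_, h1, ?_⟩
    · rw [← e]
      apply div_le_self (by positivity)
      exact one_le_pow₀ (by norm_num)
    · rw [← e]
      simpa using h2
  have hκε : κ ≤ ε := min_le_right _ _
  have htρ : 2 * t / ε ≤ ρ := by
    rw [div_le_iff₀ hε]
    have h3 := mul_le_mul_of_nonneg_right hκε hρ.le
    linarith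
  have h2tR : 2 * t ≤ R1 := by
    have h3 := mul_le_mul_of_nonneg_right (hκε.trans hε1.le) hρ.le
    have h4 := hρ1.trans (min_le_right 1 R1)
    linarith
  obtain ⟨φ, hφ, hφ0, hφsub, hout, hcol⟩ := hU zL (2 * t) (by linarith) h2tR
  set q : ℝ := ‖deriv φ 0‖ with hq
  have hq0 : 0 < q := lt_of_lt_of_le (by linarith) (deriv_ge hφ hφ0 (by linarith) hφsub)
  have hq8 : q ≤ 2 * t / ε := deriv_le hφ hφ0 hout
  have h0b : (0 : ℂ) ∈ ball (0 : ℂ) 1 := mem_ball_self one_pos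
  have hnot : ¬ ∀ j < L, ∀ h, Lf n c j φ h → h 0 = orb n c x (L - j) →
      ∀ w ∈ ball (0 : ℂ) 1, h w ≠ c := by
    intro hall
    obtain ⟨h, hh, hh0⟩ := exists_lf hn hφ h0b (hφ0.trans hzL) hall
    apply hbad
    refine ⟨_, hh.br hφ hφsub, ?_⟩
    show h (Function.invFunOn φ (ball 0 1) zL) = x
    rw [← hφ0, Pool.Agent.Helper202.Univ.invFunOn_left hφ.2 h0b, hh0]
  push Not at hnot
  obtain ⟨j, hj, h, hh, hh0, v, hv, hhv⟩ := hnot
  obtain ⟨k, rfl⟩ : ∃ k, L = k + (j + 1) := ⟨L - j - 1, by omega⟩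
  have hk1 : k + (j + 1) - j = k + 1 := by omega
  rw [hk1] at hh0
  set zk := orb n c x k with hzk
  have hzk0 : zk ≠ 0 := hx.orb_ne k
  have hzkn : 0 < ‖zk‖ := norm_pos_iff.mpr hzk0
  have hρk : ρ ≤ ‖zk‖ := hLmin k (by omega)
  have hu := hh.univ hφ
  -- the position of `v`
  have hvθ : ‖v‖ ≤ θ := by
    by_contra hgt
    push Not at hgt
    rw [mem_ball, dist_zero_right] at hv
    exact hcol v hgt hv (lf_crit hn hh (by rwa [mem_ball, dist_zero_right]) hhv)
  have h0m : ‖(0 : ℂ)‖ ≤ (1 - (3 / 4) ^ m0) * 1 := by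
    rw [norm_zero, mul_one]
    linarith
  have hvm : ‖v‖ ≤ (1 - (3 / 4) ^ m0) * 1 := by
    rw [mul_one]
    linarith
  have hsize : ‖zk‖ ^ n ≤ D * ‖deriv h 0‖ := by
    have h1 := KC.rad_lip Kc one_pos hu m0 hvm h0m
    rw [hhv, hh0, orb_succ, ← hzk, norm_sub_rev, add_sub_cancel_right, norm_pow] at h1
    rw [hD]
    linarith
  have hrad := (KC.rad Kc one_pos hu m0 v hvm).2
  -- the derivatives
  have hPh : P n c (h 0) j * deriv h 0 = deriv φ 0 := by
    have h1 : HasDerivAt (fun ζ => orb n c (h ζ) j) (P n c (h 0) j * deriv h 0) 0 :=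
      (hasDerivAt_orb (n := n) (c := c) (h 0) j).comp 0
        (hh.diff.differentiableAt (isOpen_ball.mem_nhds h0b)).hasDerivAt
    have h2 : (fun ζ => orb n c (h ζ) j) =ᶠ[𝓝 0] φ := by
      filter_upwards [isOpen_ball.mem_nhds h0b] with u hu using hh.eq u hu
    exact h1.unique ((hφ.1.differentiableAt
      (isOpen_ball.mem_nhds h0b)).hasDerivAt.congr_of_eventuallyEq h2)
  have hzLb : zL ∈ ball zL t := mem_ball_self ht
  have hG0 := hg.shift (i := k) (by omega)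
  have hkj : k + (j + 1) - k = j + 1 := by omega
  rw [hkj] at hG0
  set G : ℂ → ℂ := fun w => orb n c (g w) k with hGd
  have hGz : G zL = zk := by
    simp only [hGd]
    rw [hgx]
  have hGD : deriv G zL * (n * zk ^ (n - 1) * deriv φ 0) = deriv h 0 := by
    have h1 := hG0.mul_deriv hzLb
    have h2 : P n c (G zL) (j + 1) = n * zk ^ (n - 1) * P n c (h 0) j := by
      rw [hGz, add_comm j 1, P_add, hh0]
      have h3 : P n c zk 1 = n * zk ^ (n - 1) := by
        rw [show (1 : ℕ) = 0 + 1 from rfl, P_succ, P_zero, orb_zero, one_mul]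
      rw [h3, orb_one, hzk, ← orb_succ]
    rw [h2] at h1
    calc deriv G zL * (n * zk ^ (n - 1) * deriv φ 0)
        = (n * zk ^ (n - 1) * P n c (h 0) j * deriv G zL) * deriv h 0 := by
          rw [← hPh]; ring
      _ = deriv h 0 := by rw [h1, one_mul]
  have hGn : ‖deriv G zL‖ * (n * ‖zk‖ ^ (n - 1) * q) = ‖deriv h 0‖ := by
    rw [← hGD, norm_mul, norm_mul, norm_mul, norm_pow, Complex.norm_natCast]
  have hpow : ‖zk‖ ^ (n - 1) * ‖zk‖ = ‖zk‖ ^ n := by
    rw [← pow_succ]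
    congr 1
    omega
  have hpk : 0 < ‖zk‖ ^ (n - 1) := by positivity
  have hcov : κ1 * ‖zk‖ ≤ c0 * t * ‖deriv G zL‖ := by
    have h1 : ‖zk‖ ^ (n - 1) * ‖zk‖ ≤
        D * (‖deriv G zL‖ * (n * ‖zk‖ ^ (n - 1) * (2 * t / ε))) := by
      rw [hpow]
      refine hsize.trans ?_
      rw [← hGn]
      gcongr
    have h2 : ‖zk‖ ≤ D * ‖deriv G zL‖ * n * (2 * t / ε) := by
      refine le_of_mul_le_mul_left ?_ hpk
      linarith
    rw [hκ1, div_mul_eq_mul_div, div_le_iff₀ (by positivity)]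
    calc c0 * ε * ‖zk‖ ≤ c0 * ε * (D * ‖deriv G zL‖ * n * (2 * t / ε)) := by gcongr
      _ = c0 * t * ‖deriv G zL‖ * (2 * n * D) := by field_simp
  have hC : ∀ u ∈ ball zk (κ1 * ‖zk‖), orb n c u (j + 1) ∈ ball zL t ∧
      G (orb n c u (j + 1)) = u := by
    intro u hu
    rw [mem_ball, dist_eq_norm] at hu
    apply hG0.cover Kc ht Subset.rfl
    rw [hGz]
    linarith
  have hB : Br n c k zk (κ1 * ‖zk‖) (fun u => g (orb n c u (j + 1))) := by
    constructor
    · exact hg.diff.comp (differentiable_orb (j + 1)).differentiableOn (fun u hu => (hC u hu).1)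
    · intro u hu
      exact (hC u hu).2
  refine ⟨k, fun u => g (orb n c u (j + 1)), ?_, ?_, ?_, fun i hi => hLmin i (by omega)⟩
  · rw [← hzk]
    apply hB.mono
    apply ball_subset_ball
    have : κ ≤ κ1 := min_le_left _ _
    gcongr
  · show g (orb n c (orb n c x k) (j + 1)) = x
    rw [← orb_add, ← hzL, hgx]
  · rw [← hzk]
    by_contra hcon
    push Not at hcon
    have hS0 : 0 < κ3 * ‖zk‖ ^ n := by positivity
    have h2ρ : (2 * ρ) ^ n ≤ κ3 * ‖zk‖ ^ n / 4 := by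
      have h1 : 2 * ρ ≤ 2 / C1 * ‖zk‖ := by
        rw [div_mul_eq_mul_div, le_div_iff₀ (by linarith)]
        linarith
      have h2 : (2 / C1) ^ n ≤ 2 / C1 := by
        apply pow_le_of_le_one (by positivity) _ hn0
        rw [div_le_one (by linarith)]
        linarith
      have h3 : 2 / C1 ≤ κ3 / 4 := by
        rw [div_le_div_iff₀ (by linarith) (by norm_num)]
        have : κ3 * C1 = 8 + 2 * κ3 := by
          rw [hC1]
          field_simp
        linarith
      calc (2 * ρ) ^ n ≤ (2 / C1 * ‖zk‖) ^ n := by gcongr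
        _ = (2 / C1) ^ n * ‖zk‖ ^ n := mul_pow _ _ _
        _ ≤ κ3 / 4 * ‖zk‖ ^ n := by gcongr; exact h2.trans h3
        _ = κ3 * ‖zk‖ ^ n / 4 := by ring
    have hsubv : ball v (1 - θ) ⊆ ball 0 1 := by
      intro u hu
      rw [mem_ball, dist_eq_norm] at hu
      rw [mem_ball, dist_zero_right]
      have := norm_add_le (u - v) v
      rw [sub_add_cancel] at this
      linarith
    have hcv := KC.ball_sub Kc hu hθ1 hsubv
    rw [hhv] at hcv
    obtain ⟨y, hy⟩ := attr_per (n := n) (c := c) (N := j + 1) (by omega)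
      (s := κ3 * ‖zk‖ ^ n) hS0 (by
        intro y hy
        have h1 : κ3 * ‖zk‖ ^ n < c0 * (1 - θ) * ‖deriv h v‖ := by
          have h2 : ‖zk‖ ^ n ≤ D * (C0 ^ m0 * ‖deriv h v‖) := hsize.trans (by gcongr)
          have h3 : 0 < ‖zk‖ ^ n := by positivity
          calc κ3 * ‖zk‖ ^ n < 2 * κ3 * ‖zk‖ ^ n := by linarith [mul_pos hκ30 h3]
            _ ≤ 2 * κ3 * (D * (C0 ^ m0 * ‖deriv h v‖)) := by gcongr
            _ = c0 * (1 - θ) * ‖deriv h v‖ := by
              rw [hκ3]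
              field_simp
        obtain ⟨ζ, hζ, hζy⟩ := hcv (by
          rw [mem_ball, dist_eq_norm]
          linarith : y ∈ ball c (c0 * (1 - θ) * ‖deriv h v‖))
        rw [norm_orb_succ_sub, ← hζy, hh.eq ζ hζ]
        refine le_trans ?_ h2ρ
        have h4 : ‖φ ζ‖ ≤ 2 * ρ := by
          have h5 := hout (mem_image_of_mem φ hζ)
          rw [mem_ball, dist_eq_norm] at h5
          have h6 := norm_add_le (φ ζ - zL) zL
          rw [sub_add_cancel] at h6
          linarith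
        gcongr)
    exact hQ.na c (mem_ball_self hQ.hr) ⟨_, _, hy⟩

end Pool.Agent.J4H8.UD
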