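import Mathlib
import Pool.Agent.J4H8.UD.Basic
import Pool.Agent.J4H73.AS.Mont

/-!
# Limits of conformal discs along an ultrafilter
-/

set_option autoImplicit false
open Set Filter Topology Metric Complex MeasureTheory

namespace Pool.Agent.J4H8.UD

open Pool.Agent.J4H16 Pool.Agent.J4H16.AS Pool.Agent.J4H16.UD Pool.Agent.W746.LD

/-- Covering with a uniform radius. -/
theorem cov_unif {C0 c0 : ℝ} (Kc : KC C0 c0) {F : ℂ → ℂ} (hF : Univ F 0 1) {t : ℝ}
    (hd : t ≤ ‖deriv F 0‖) {m : ℕ} {ζ : ℂ} (hζ : ‖ζ‖ ≤ 1 - (3 / 4) ^ m) {r : ℝ} (hr : 0 < r)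
    (hsub : ball ζ r ⊆ ball 0 1) {w : ℂ} (hw : ‖w - F ζ‖ < c0 * r * (t / C0 ^ m)) :
    ∃ u ∈ ball ζ r, F u = w := by
  have hc0 := Kc.pos
  have hC0 := Kc.one_le
  have hCm : 0 < C0 ^ m := by positivity
  apply KC.cover Kc hr (hF.mono hsub)
  refine hw.trans_le ?_
  have h1 := (KC.rad Kc one_pos hF m ζ (by rw [mul_one]; exact hζ)).2
  have h2 : t / C0 ^ m ≤ ‖deriv F ζ‖ := by
    rw [div_le_iff₀ hCm]
    linarith
  gcongr

/-- A scaled conformal disc. -/
theorem scale_disc {φ : ℂ → ℂ} {s t ε : ℝ} {Z : ℂ} (hs : 0 < s)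
    (hφ : Univ φ 0 1) (h0 : φ 0 = s * Z) (hin : ball (s * Z) (s * t) ⊆ φ '' ball 0 1)
    (hout : φ '' ball 0 1 ⊆ ball (s * Z) (s * t / ε)) :
    Univ (fun ζ => φ ζ / s) 0 1 ∧ (fun ζ => φ ζ / s) 0 = Z ∧
      ball Z t ⊆ (fun ζ => φ ζ / s) '' ball 0 1 ∧
      (fun ζ => φ ζ / s) '' ball 0 1 ⊆ ball Z (t / ε) := by
  have hsc : (s : ℂ) ≠ 0 := by exact_mod_cast hs.ne'
  refine ⟨⟨hφ.1.div_const _, ?_⟩, ?_, ?_, ?_⟩
  · intro x hx y hy hxy
    exact hφ.2 hx hy ((div_left_inj' hsc).mp hxy)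
  · show φ 0 / s = Z
    rw [h0]
    field_simp
  · intro w hw
    have h1 : s * w ∈ ball ((s : ℂ) * Z) (s * t) := by
      rw [mem_ball, dist_eq_norm, ← mul_sub, norm_mul, Complex.norm_real,
        Real.norm_of_nonneg hs.le]
      rw [mem_ball, dist_eq_norm] at hw
      exact mul_lt_mul_of_pos_left hw hs
    obtain ⟨ζ, hζ, h2⟩ := hin h1
    refine ⟨ζ, hζ, ?_⟩
    show φ ζ / s = w
    rw [h2]
    field_simp
  · rintro _ ⟨ζ, hζ, rfl⟩
    have h1 := hout (mem_image_of_mem φ hζ)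
    rw [mem_ball, dist_eq_norm] at h1 ⊢
    have h2 : φ ζ / s - Z = (φ ζ - s * Z) / s := by
      field_simp
    rw [h2, norm_div, Complex.norm_real, Real.norm_of_nonneg hs.le, div_lt_iff₀ hs]
    calc ‖φ ζ - s * Z‖ < s * t / ε := h1
      _ = t / ε * s := by ring

theorem t_LIMD : S_LIMD := by
  classical
  intro U σ S ε t Z φ hε hε1 ht hσ hev
  obtain ⟨C0, c0, Kc⟩ := exists_KC
  have hc0 := Kc.pos
  have hC0 := Kc.one_le
  set F : ℕ → ℂ → ℂ := fun j ζ => φ j ζ / σ j with hF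
  have hsc : ∀ j, (σ j : ℂ) ≠ 0 := fun j => by exact_mod_cast (hσ j).ne'
  have hFev : ∀ᶠ j in (U : Filter ℕ), Univ (F j) 0 1 ∧ F j 0 = Z ∧ ball Z t ⊆ F j '' ball 0 1 ∧
      F j '' ball 0 1 ⊆ ball Z (t / ε) := by
    filter_upwards [hev] with j hj
    exact scale_disc (hσ j) hj.1 hj.2.1 hj.2.2.1 hj.2.2.2.1
  have hdev : ∀ᶠ j in (U : Filter ℕ), t ≤ ‖deriv (F j) 0‖ := by
    filter_upwards [hFev] with j hj
    exact deriv_ge hj.1 hj.2.1 ht hj.2.2.1
  obtain ⟨g, hg, hlim⟩ := Pool.Agent.J4H73.AS.mont U F (ball 0 1) isOpen_ball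
    (by filter_upwards [hFev] with j hj using hj.1.1) (by
      intro K hK _
      refine ⟨t / ε + ‖Z‖, ?_⟩
      filter_upwards [hFev] with j hj
      intro z hz
      have h1 := hj.2.2.2 (mem_image_of_mem (F j) (hK hz))
      rw [mem_ball, dist_eq_norm] at h1
      have h2 := norm_add_le (F j z - Z) Z
      rw [sub_add_cancel] at h2
      linarith)
  have hpt : ∀ ζ ∈ ball (0 : ℂ) 1, Tendsto (fun j => F j ζ) (U : Filter ℕ) (𝓝 (g ζ)) :=
    fun ζ hζ => hlim.tendsto_at hζ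
  have h0b : (0 : ℂ) ∈ ball (0 : ℂ) 1 := mem_ball_self one_pos
  have hg0 : g 0 = Z := by
    refine tendsto_nhds_unique (hpt 0 h0b) ?_
    refine tendsto_const_nhds.congr' ?_
    filter_upwards [hFev] with j hj using hj.2.1.symm
  -- covering of neighbourhoods of `g ζ`
  have hcov : ∀ ζ ∈ ball (0 : ℂ) 1, ∀ r : ℝ, 0 < r → ball ζ r ⊆ ball 0 1 → ∃ e : ℝ, 0 < e ∧
      ∀ᶠ j in (U : Filter ℕ), ∀ w ∈ ball (g ζ) e, ∃ u ∈ ball ζ r, F j u = w := by
    intro ζ hζ r hr hsub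
    have hζ1 : ‖ζ‖ < 1 := by rwa [mem_ball, dist_zero_right] at hζ
    obtain ⟨m, hm⟩ := exists_rad hζ1
    have hCm : 0 < C0 ^ m := by positivity
    set e : ℝ := c0 * r * (t / C0 ^ m) / 2 with he
    have he0 : 0 < e := by positivity
    refine ⟨e, he0, ?_⟩
    have h1 : ∀ᶠ j in (U : Filter ℕ), dist (F j ζ) (g ζ) < e :=
      (Metric.tendsto_nhds.mp (hpt ζ hζ)) e he0
    filter_upwards [h1, hFev, hdev] with j hj1 hj2 hj3
    intro w hw
    refine cov_unif Kc hj2.1 hj3 hm hr hsub ?_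
    rw [mem_ball, dist_eq_norm] at hw
    rw [dist_eq_norm, norm_sub_rev] at hj1
    have h2 := norm_add_le (w - g ζ) (g ζ - F j ζ)
    rw [sub_add_sub_cancel] at h2
    linarith
  have hinj : InjOn g (ball 0 1) := by
    intro x hx y hy hxy
    by_contra hne
    have hd : 0 < dist x y := dist_pos.mpr hne
    obtain ⟨r1, hr1, hs1⟩ := Metric.isOpen_ball.mem_nhds hx |> Metric.mem_nhds_iff.mp
    obtain ⟨r2, hr2, hs2⟩ := Metric.isOpen_ball.mem_nhds hy |> Metric.mem_nhds_iff.mp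
    have hr1' : 0 < min r1 (dist x y / 2) := lt_min hr1 (half_pos hd)
    have hr2' : 0 < min r2 (dist x y / 2) := lt_min hr2 (half_pos hd)
    obtain ⟨e1, he1, h1⟩ := hcov x hx _ hr1' ((ball_subset_ball (min_le_left _ _)).trans hs1)
    obtain ⟨e2, he2, h2⟩ := hcov y hy _ hr2' ((ball_subset_ball (min_le_left _ _)).trans hs2)
    obtain ⟨j, hj1, hj2, hj3⟩ := (h1.and (h2.and hFev)).exists
    obtain ⟨u1, hu1, hw1⟩ := hj1 (g x) (mem_ball_self he1)
    obtain ⟨u2, hu2, hw2⟩ := hj2 (g x) (by rw [hxy]; exact mem_ball_self he2)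
    have huu : u1 = u2 := hj3.1.2 (hs1 (ball_subset_ball (min_le_left _ _) hu1))
      (hs2 (ball_subset_ball (min_le_left _ _) hu2)) (hw1.trans hw2.symm)
    subst huu
    have h3 : dist u1 x < dist x y / 2 := lt_of_lt_of_le hu1 (min_le_right _ _)
    have h4 : dist u1 y < dist x y / 2 := lt_of_lt_of_le hu2 (min_le_right _ _)
    have h5 := dist_triangle_left x y u1
    linarith
  refine ⟨g, ⟨hg, hinj⟩, hg0, ?_, ?_, ?_, hpt, ?_⟩
  · -- the image contains `ball Z t`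
    intro w hw
    have h1 : ∀ᶠ j in (U : Filter ℕ), ∃ ζ : ℂ, ‖ζ‖ ≤ ‖w - Z‖ / t ∧ F j ζ = w := by
      filter_upwards [hFev] with j hj
      obtain ⟨ζ, -, h2, h3⟩ := inv_small hj.1 hj.2.1 ht hj.2.2.1 hw
      exact ⟨ζ, h2, h3⟩
    have h2 : ∃ ζ : ℕ → ℂ, ∀ᶠ j in (U : Filter ℕ), ‖ζ j‖ ≤ ‖w - Z‖ / t ∧ F j (ζ j) = w := by
      refine ⟨fun j => if h : ∃ ζ : ℂ, ‖ζ‖ ≤ ‖w - Z‖ / t ∧ F j ζ = w then h.choose else 0, ?_⟩
      filter_upwards [h1] with j hj
      rw [dif_pos hj]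
      exact hj.choose_spec
    obtain ⟨ζ, hζ⟩ := h2
    obtain ⟨x, hx, hxl⟩ := (isCompact_closedBall (0 : ℂ) (‖w - Z‖ / t)).ultrafilter_le_nhds'
      (U.map ζ) (by
        rw [Ultrafilter.mem_map]
        filter_upwards [hζ] with j hj
        show ζ j ∈ closedBall (0 : ℂ) (‖w - Z‖ / t)
        rw [mem_closedBall, dist_zero_right]
        exact hj.1)
    have hxl' : Tendsto ζ (U : Filter ℕ) (𝓝 x) := hxl
    rw [mem_closedBall, dist_zero_right] at hx
    have hwt : ‖w - Z‖ / t < 1 := by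
      rw [div_lt_one ht]
      rwa [mem_ball, dist_eq_norm] at hw
    have hxb : x ∈ ball (0 : ℂ) 1 := by
      rw [mem_ball, dist_zero_right]
      linarith
    have h3 : Tendsto (fun j => F j (ζ j)) (U : Filter ℕ) (𝓝 (g x)) := by
      refine hlim.tendsto_comp (hg.continuousOn x hxb) hxb ?_
      rw [isOpen_ball.nhdsWithin_eq hxb]
      exact hxl'
    refine ⟨x, hxb, tendsto_nhds_unique h3 ?_⟩
    refine tendsto_const_nhds.congr' ?_
    filter_upwards [hζ] with j hj using hj.2.symm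
  · -- the image is contained in `ball Z (t / ε)`
    have h1 : g '' ball 0 1 ⊆ closedBall Z (t / ε) := by
      rintro _ ⟨ζ, hζ, rfl⟩
      refine isClosed_closedBall.mem_of_tendsto (hpt ζ hζ) ?_
      filter_upwards [hFev] with j hj
      exact ball_subset_closedBall (hj.2.2.2 (mem_image_of_mem (F j) hζ))
    have h2 : IsOpen (g '' ball 0 1) := Pool.Agent.Helper202.Univ.isOpen_image isOpen_ball hg
      hinj isOpen_ball Subset.rfl
    have h3 := interior_maximal h1 h2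
    rwa [interior_closedBall _ (by positivity : t / ε ≠ 0)] at h3
  · -- the collar is free
    intro ζ hζ1 hζ2 hmem
    have hζb : ζ ∈ ball (0 : ℂ) 1 := by rwa [mem_ball, dist_zero_right]
    have hopen : IsOpen {u : ℂ | 1 - ε < ‖u‖ ∧ ‖u‖ < 1} :=
      (isOpen_lt continuous_const continuous_norm).inter (isOpen_lt continuous_norm
        continuous_const)
    obtain ⟨r, hr, hsub⟩ := Metric.mem_nhds_iff.mp (hopen.mem_nhds ⟨hζ1, hζ2⟩)
    have hsub1 : ball ζ r ⊆ ball 0 1 := by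
      intro u hu
      rw [mem_ball, dist_zero_right]
      exact (hsub hu).2
    obtain ⟨e, he, h1⟩ := hcov ζ hζb r hr hsub1
    obtain ⟨j, hj1, hj2, p, hp, hpj⟩ := (h1.and (hev.and (hmem e he))).exists
    obtain ⟨u, hu, huw⟩ := hj1 (p / σ j) (by
      rw [mem_ball, dist_eq_norm]
      have h2 : p / σ j - g ζ = (p - σ j * g ζ) / σ j := by
        have := hsc j
        field_simp
      rw [h2, norm_div, Complex.norm_real, Real.norm_of_nonneg (hσ j).le, div_lt_iff₀ (hσ j)]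
      linarith)
    have h3 : φ j u = p := (div_left_inj' (hsc j)).mp huw
    apply hj2.2.2.2.2 u (hsub hu).1 (hsub hu).2
    rw [h3]
    exact hp
  · -- uniform covering
    intro ρ hρ hρ1
    obtain ⟨m, hm⟩ := exists_rad hρ1
    have hCm : 0 < C0 ^ m := by positivity
    have hr : 0 < (1 - ρ) / 2 := by linarith
    set e : ℝ := c0 * ((1 - ρ) / 2) * (t / C0 ^ m) with he
    have he0 : 0 < e := by positivity
    have hKs : closedBall (0 : ℂ) ρ ⊆ ball 0 1 := closedBall_subset_ball hρ1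
    have h1 := (tendstoLocallyUniformlyOn_iff_forall_isCompact isOpen_ball).mp hlim _ hKs
      (isCompact_closedBall (0 : ℂ) ρ)
    rw [Metric.tendstoUniformlyOn_iff] at h1
    filter_upwards [h1 e he0, hFev, hdev] with j hj1 hj2 hj3
    intro ζ hζ
    have h2 := hj1 ζ (by rw [mem_closedBall, dist_zero_right]; exact hζ)
    rw [dist_eq_norm] at h2
    have hsub : ball ζ ((1 - ρ) / 2) ⊆ ball 0 1 := by
      intro u hu
      rw [mem_ball, dist_eq_norm] at hu
      rw [mem_ball, dist_zero_right]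
      have := norm_add_le (u - ζ) ζ
      rw [sub_add_cancel] at this
      linarith
    obtain ⟨u, hu, huw⟩ := cov_unif Kc hj2.1 hj3 (hζ.trans hm) hr hsub h2
    refine ⟨u, ?_, ?_⟩
    · rw [mem_ball, dist_eq_norm] at hu
      have := norm_add_le (u - ζ) ζ
      rw [sub_add_cancel] at this
      linarith
    · have h3 : φ j u / σ j = g ζ := huw
      rw [← h3]
      have := hsc j
      field_simp

end Pool.Agent.J4H8.UD
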