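import Mathlib
import Pool.Agent.J4H8.UD.Limd

/-!
# Limits of uniformly disconnected sets are totally disconnected
-/

set_option autoImplicit false
open Set Filter Topology Metric Complex MeasureTheory

namespace Pool.Agent.J4H8.UD

open Pool.Agent.J4H16 Pool.Agent.J4H16.AS Pool.Agent.J4H16.UD Pool.Agent.W746.LD

theorem isClosed_lim (U : Ultrafilter ℕ) (σ : ℕ → ℝ) (S : Set ℂ) (hσ : ∀ j, 0 < σ j) :
    IsClosed (Lim U σ S) := by
  rw [← closure_subset_iff_isClosed]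
  intro Z hZ d hd
  obtain ⟨Z', hZ', hZZ⟩ := Metric.mem_closure_iff.1 hZ (d / 2) (by positivity)
  filter_upwards [hZ' (d / 2) (by positivity)] with j hj
  obtain ⟨p, hp, hpj⟩ := hj
  refine ⟨p, hp, ?_⟩
  have h1 : p - σ j * Z = (p - σ j * Z') + σ j * (Z' - Z) := by ring
  rw [h1]
  refine (norm_add_le _ _).trans_lt ?_
  have h2 : ‖(σ j : ℂ) * (Z' - Z)‖ < σ j * (d / 2) := by
    rw [norm_mul, Complex.norm_real, Real.norm_of_nonneg (hσ j).le]
    apply mul_lt_mul_of_pos_left _ (hσ j)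
    rw [← dist_eq_norm, dist_comm]
    exact hZZ
  calc _ < σ j * (d / 2) + σ j * (d / 2) := add_lt_add hpj h2
    _ = σ j * d := by ring

/-- The disc `g (ball 0 ρ)` has its frontier in the image of the circle. -/
theorem frontier_disc {g : ℂ → ℂ} (hg : Univ g 0 1) {ρ : ℝ} (hρ1 : ρ < 1) {z : ℂ}
    (hz : z ∈ frontier (g '' ball 0 ρ)) : ∃ ζ : ℂ, ‖ζ‖ = ρ ∧ g ζ = z := by
  have hsub : closedBall (0 : ℂ) ρ ⊆ ball 0 1 := closedBall_subset_ball hρ1
  have hopen : IsOpen (g '' ball 0 ρ) := Pool.Agent.Helper202.Univ.isOpen_image isOpen_ball hg.1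
    hg.2 isOpen_ball (ball_subset_closedBall.trans hsub)
  have hcomp : IsCompact (g '' closedBall 0 ρ) :=
    (isCompact_closedBall (0 : ℂ) ρ).image_of_continuousOn (hg.1.continuousOn.mono hsub)
  have h1 : closure (g '' ball 0 ρ) ⊆ g '' closedBall 0 ρ :=
    closure_minimal (image_mono ball_subset_closedBall) hcomp.isClosed
  rw [hopen.frontier_eq] at hz
  obtain ⟨ζ, hζ, hζz⟩ := h1 hz.1
  refine ⟨ζ, le_antisymm (by simpa using hζ) ?_, hζz⟩
  by_contra hlt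
  push Not at hlt
  apply hz.2
  exact ⟨ζ, by simpa using hlt, hζz⟩

theorem t_LIMU : S_LIMU := by
  classical
  intro U σ S ε R1 hε hε1 hR1 hU hσ hσ0
  refine ⟨isClosed_lim U σ S hσ, ?_⟩
  intro Z _ e he
  set t : ℝ := e * ε with ht
  have ht0 : 0 < t := by positivity
  have hsm : ∀ᶠ j in (U : Filter ℕ), σ j < R1 / t := hσ0.eventually_lt_const (by positivity)
  have hch : ∀ j, ∃ φ : ℂ → ℂ, σ j < R1 / t → Univ φ 0 1 ∧ φ 0 = σ j * Z ∧
      ball (σ j * Z) (σ j * t) ⊆ φ '' ball 0 1 ∧ φ '' ball 0 1 ⊆ ball (σ j * Z) (σ j * t / ε) ∧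
      ∀ ζ : ℂ, 1 - ε < ‖ζ‖ → ‖ζ‖ < 1 → φ ζ ∉ S := by
    intro j
    by_cases hj : σ j < R1 / t
    · have h1 : σ j * t ≤ R1 := by
        rw [lt_div_iff₀ ht0] at hj
        exact hj.le
      obtain ⟨φ, hφ⟩ := hU (σ j * Z) (σ j * t) (mul_pos (hσ j) ht0) h1
      exact ⟨φ, fun _ => hφ⟩
    · exact ⟨id, fun h => absurd h hj⟩
  choose φ hφ using hch
  obtain ⟨g, h1, h2, h3, h4, h5, -, -⟩ := t_LIMD U σ S ε t Z φ hε hε1 ht0 hσ (by
    filter_upwards [hsm] with j hj using hφ j hj)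
  have hρ1 : 1 - ε / 2 < 1 := by linarith
  have hρ0 : 0 < 1 - ε / 2 := by linarith
  have hsub : ball (0 : ℂ) (1 - ε / 2) ⊆ ball 0 1 := ball_subset_ball hρ1.le
  refine ⟨g '' ball 0 (1 - ε / 2), Pool.Agent.Helper202.Univ.isOpen_image isOpen_ball h1.1
    h1.2 isOpen_ball hsub, ⟨0, mem_ball_self hρ0, h2⟩, ?_, ?_⟩
  · refine (image_mono hsub).trans (h4.trans (ball_subset_ball ?_))
    rw [ht, mul_div_assoc, div_self hε.ne', mul_one]
  · intro z hz
    obtain ⟨ζ, hζ, rfl⟩ := frontier_disc h1 hρ1 hz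
    exact h5 ζ (by rw [hζ]; linarith) (by rw [hζ]; exact hρ1)

end Pool.Agent.J4H8.UD
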