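import Mathlib
import Pool.Agent.J4H8.UD.Basic
import Pool.Agent.J4H16.Mob

/-!
# Annuli about the points of the set suffice
-/

set_option autoImplicit false
open Set Filter Topology Metric Complex MeasureTheory
open scoped ComplexConjugate

namespace Pool.Agent.J4H8.UD

open Pool.Agent.J4H16 Pool.Agent.J4H16.AS Pool.Agent.J4H16.UD Pool.Agent.W746.LD

theorem t_UDP : S_UDP := by
  intro S ε R1 hε hε1 hR1 hS
  refine ⟨ε / 8, R1 / 4, by linarith, by linarith, by linarith, ?_⟩
  intro a R hR hRR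
  by_cases hfree : ∃ p ∈ S, ‖a - p‖ < 2 * R
  · obtain ⟨p, hp, hpa⟩ := hfree
    obtain ⟨φ, hφ, hφ0, hin, hout, hcol⟩ := hS p hp (4 * R) (by linarith) (by linarith)
    obtain ⟨b, hb, hbn, hba⟩ := inv_small (u := a) hφ hφ0 (by linarith : 0 < 4 * R) hin (by
      rw [mem_ball, dist_eq_norm]
      linarith)
    have hb2 : ‖b‖ ≤ 1 / 2 := by
      refine hbn.trans ?_
      rw [div_le_iff₀ (by linarith)]
      linarith
    have hb1 : ‖b‖ < 1 := by linarith
    have hmu := mob_univ hb1
    have himg : (fun ζ => φ (mob b ζ)) '' ball 0 1 = φ '' ball 0 1 := by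
      rw [← image_image φ (mob b), mob_image hb1]
    have hmaps : MapsTo (mob b) (ball 0 1) (ball 0 1) := by
      intro ζ hζ
      rw [← mob_image hb1]
      exact mem_image_of_mem _ hζ
    refine ⟨fun ζ => φ (mob b ζ), ⟨hφ.1.comp hmu.1 hmaps, ?_⟩, ?_, ?_, ?_, ?_⟩
    · intro x hx y hy hxy
      exact hmu.2 hx hy (hφ.2 (hmaps hx) (hmaps hy) hxy)
    · show φ (mob b 0) = a
      rw [mob_zero, hba]
    · rw [himg]
      refine Subset.trans ?_ hin
      intro z hz
      rw [mem_ball, dist_eq_norm] at hz ⊢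
      have := norm_add_le (z - a) (a - p)
      rw [sub_add_sub_cancel] at this
      linarith
    · rw [himg]
      refine hout.trans ?_
      intro z hz
      rw [mem_ball, dist_eq_norm] at hz ⊢
      have h1 := norm_sub_le (z - p) (a - p)
      rw [sub_sub_sub_cancel_right] at h1
      have h2 : R ≤ R / ε := by
        rw [le_div_iff₀ hε]
        have := mul_le_mul_of_nonneg_left hε1.le hR.le
        linarith
      have h3 : 4 * R / ε = 4 * (R / ε) := by ring
      have h4 : R / (ε / 8) = 8 * (R / ε) := by field_simp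
      have h5 : 0 < R / ε := by positivity
      rw [h3] at hz
      rw [h4]
      linarith
    · intro ζ hζ1 hζ2
      have hζb : ζ ∈ ball (0 : ℂ) 1 := by rwa [mem_ball, dist_zero_right]
      apply hcol
      · have h1 := mob_id b ζ
        have h2 : 1 / 2 ≤ ‖1 + conj b * ζ‖ := by
          have h3 := norm_sub_norm_le (1 : ℂ) (-(conj b * ζ))
          rw [sub_neg_eq_add, norm_one, norm_neg, norm_mul, RCLike.norm_conj] at h3
          have h4 : ‖b‖ * ‖ζ‖ ≤ 1 / 2 * 1 := by gcongr
          linarith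
        have h5 : 0 < ‖1 + conj b * ζ‖ := by linarith
        have h6 : ‖mob b ζ‖ = ‖ζ + b‖ / ‖1 + conj b * ζ‖ := by rw [mob, norm_div]
        have h7 : ‖mob b ζ‖ < 1 := by
          have := hmaps hζb
          rwa [mem_ball, dist_zero_right] at this
        set N := ‖1 + conj b * ζ‖ with hN
        have h8 : ‖ζ + b‖ = ‖mob b ζ‖ * N := by
          rw [h6]
          field_simp
        rw [h8] at h1
        have h9 : (1 - ‖mob b ζ‖ ^ 2) * N ^ 2 = (1 - ‖b‖ ^ 2) * (1 - ‖ζ‖ ^ 2) := by
          rw [← h1]; ring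
        have h10 : (1 - ‖b‖ ^ 2) * (1 - ‖ζ‖ ^ 2) ≤ 1 * (2 * (ε / 8)) := by
          have hζ0 := norm_nonneg ζ
          have hb0 := norm_nonneg b
          apply mul_le_mul
          · nlinarith
          · nlinarith
          · nlinarith
          · norm_num
        have h11 : (1 : ℝ) / 4 ≤ N ^ 2 := by nlinarith
        have h12 : 0 ≤ 1 - ‖mob b ζ‖ ^ 2 := by nlinarith [norm_nonneg (mob b ζ)]
        have h13 : (1 - ‖mob b ζ‖ ^ 2) * (1 / 4) ≤ (1 - ‖mob b ζ‖ ^ 2) * N ^ 2 :=
          mul_le_mul_of_nonneg_left h11 h12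
        have h14 : 1 - ‖mob b ζ‖ ^ 2 ≤ ε := by linarith
        have h15 : 0 ≤ ‖mob b ζ‖ := norm_nonneg _
        by_contra hcon
        push Not at hcon
        nlinarith
      · have := hmaps hζb
        rwa [mem_ball, dist_zero_right] at this
  · push Not at hfree
    have hRc : ((2 * R : ℝ) : ℂ) ≠ 0 := by exact_mod_cast (by linarith : (2 * R : ℝ) ≠ 0)
    have hnorm : ∀ ζ : ℂ, ‖((2 * R : ℝ) : ℂ) * ζ‖ = 2 * R * ‖ζ‖ := by
      intro ζ
      rw [norm_mul, Complex.norm_real, Real.norm_of_nonneg (by linarith)]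
    refine ⟨fun ζ => a + ((2 * R : ℝ) : ℂ) * ζ, ⟨?_, ?_⟩, by simp, ?_, ?_, ?_⟩
    · exact ((differentiable_id.const_mul _).const_add _).differentiableOn
    · intro x _ y _ hxy
      exact mul_left_cancel₀ hRc (add_left_cancel hxy)
    · intro z hz
      rw [mem_ball, dist_eq_norm] at hz
      refine ⟨(z - a) / ((2 * R : ℝ) : ℂ), ?_, ?_⟩
      · rw [mem_ball, dist_zero_right, norm_div, Complex.norm_real,
          Real.norm_of_nonneg (by linarith), div_lt_one (by linarith)]
        linarith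
      · show a + ((2 * R : ℝ) : ℂ) * ((z - a) / ((2 * R : ℝ) : ℂ)) = z
        rw [mul_div_cancel₀ _ hRc]
        ring
    · rintro _ ⟨ζ, hζ, rfl⟩
      rw [mem_ball, dist_zero_right] at hζ
      rw [mem_ball, dist_eq_norm]
      show ‖a + ((2 * R : ℝ) : ℂ) * ζ - a‖ < _
      rw [add_sub_cancel_left, hnorm]
      have h2 : R ≤ R / ε := by
        rw [le_div_iff₀ hε]
        have := mul_le_mul_of_nonneg_left hε1.le hR.le
        linarith
      have h4 : R / (ε / 8) = 8 * (R / ε) := by field_simp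
      rw [h4]
      have h5 : 2 * R * ‖ζ‖ < 2 * R * 1 := by gcongr
      linarith
    · intro ζ _ hζ2 hmem
      have h1 := hfree _ hmem
      have h2 : a - (a + ((2 * R : ℝ) : ℂ) * ζ) = -(((2 * R : ℝ) : ℂ) * ζ) := by ring
      rw [h2, norm_neg, hnorm] at h1
      have h5 : 2 * R * ‖ζ‖ < 2 * R * 1 := by gcongr
      linarith

end Pool.Agent.J4H8.UD
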